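import Pool.Agent.H458.AR.Fld
import Pool.Graph.R_pool_sql_team_seeded_63374d34.N3.PQ.TW2

/-!
# Part L2: the condition at `2` for the twist by `D ≡ 1` modulo `8` (helper249, for helper458)
-/

set_option autoImplicit false

open Polynomial

namespace Pool.Agent.H249.AR458

open Pool.Agent.N922.PQ Pool.Agent.H458.AR

/-- the local condition for `y² = x³ + A x + B`, `A`, `B` in the field -/
def PG {F : Type} [Field F] (A B : F) (h : F[X]) : Prop :=
  (∃ g : F[X], X ^ 3 + C A * X + C B ∣ h - g ^ 2) ∨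
  ∃ x y : F, y ≠ 0 ∧ y ^ 2 = x ^ 3 + A * x + B ∧
    ∃ g : F[X], X ^ 3 + C A * X + C B ∣ (C x - X) * h - g ^ 2

theorem pg_tw {F : Type} [Field F] {A B D d : F} (hd0 : d ≠ 0) (hd : d ^ 2 = D) {h : F[X]}
    (H : PG (A * D ^ 2) (B * D ^ 3) h) : PG A B (h.comp (C D * X)) := by
  have hD : D ≠ 0 := by
    rw [← hd]
    exact pow_ne_zero 2 hd0
  rcases H with ⟨g, hg⟩ | ⟨x, y, hy, hxy, g, hg⟩
  · left
    refine ⟨g.comp (C D * X), ?_⟩
    have h2 := Pool.Agent.N3.PQ.TW2.dvd_comp_cub _ _ _ hg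
    rw [sub_comp, pow_comp] at h2
    exact h2
  · right
    refine ⟨x / D, y / d ^ 3, div_ne_zero hy (pow_ne_zero 3 hd0), ?_,
      C (1 / d) * g.comp (C D * X), ?_⟩
    · have h3 : (d ^ 3) ^ 2 = D ^ 3 := by rw [← hd]; ring
      rw [div_pow, h3, hxy]
      field_simp
    · have h2 := Pool.Agent.N3.PQ.TW2.dvd_comp_cub _ _ _ hg
      rw [sub_comp, pow_comp, mul_comp, sub_comp, C_comp, X_comp] at h2
      have e1 : (C (x / D) : F[X]) = C (1 / D) * C x := by
        rw [← C_mul, one_div_mul_eq_div]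
      have e2 : (C (1 / D) : F[X]) * C D = 1 := by
        rw [← C_mul, one_div_mul_cancel hD, C_1]
      have e3 : (C (1 / d) : F[X]) ^ 2 = C (1 / D) := by
        rw [← C_pow, div_pow, one_pow, hd]
      have h3 : (C (x / D) - X) * h.comp (C D * X) - (C (1 / d) * g.comp (C D * X)) ^ 2 =
          C (1 / D) * ((C x - C D * X) * h.comp (C D * X) - g.comp (C D * X) ^ 2) := by
        rw [e1, mul_pow, e3]
        linear_combination ((X : F[X]) * h.comp (C D * X)) * e2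
      rw [h3]
      exact Dvd.dvd.mul_left h2 _

theorem comp_inv {F : Type} [Field F] {D : F} (hD : D ≠ 0) (h : F[X]) :
    (h.comp (C D * X)).comp (C D⁻¹ * X) = h := by
  rw [comp_assoc, mul_comp, C_comp, X_comp, ← mul_assoc, ← C_mul, mul_inv_cancel₀ hD, C_1,
    one_mul, comp_X]

theorem pg_iff {F : Type} [Field F] {A B D d : F} (hd0 : d ≠ 0) (hd : d ^ 2 = D) {h : F[X]} :
    PG (A * D ^ 2) (B * D ^ 3) h ↔ PG A B (h.comp (C D * X)) := by
  refine ⟨pg_tw hd0 hd, fun H => ?_⟩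
  have hD : D ≠ 0 := by
    rw [← hd]
    exact pow_ne_zero 2 hd0
  have hA : (A * D ^ 2) * D⁻¹ ^ 2 = A := by
    rw [inv_pow, mul_assoc, mul_inv_cancel₀ (pow_ne_zero 2 hD), mul_one]
  have hB : (B * D ^ 3) * D⁻¹ ^ 3 = B := by
    rw [inv_pow, mul_assoc, mul_inv_cancel₀ (pow_ne_zero 3 hD), mul_one]
  have H' : PG ((A * D ^ 2) * D⁻¹ ^ 2) ((B * D ^ 3) * D⁻¹ ^ 3) (h.comp (C D * X)) := by
    rw [hA, hB]
    exact H
  have h1 := pg_tw (inv_ne_zero hd0) (by rw [inv_pow, hd]) H'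
  rw [comp_inv hD] at h1
  exact h1

theorem pl_iff {F : Type} [Field F] [CharZero F] (a b D : ℤ) {d : F} (hd0 : d ≠ 0)
    (hd : d ^ 2 = (D : F)) (h : F[X]) :
    PL F (a * D ^ 2) (b * D ^ 3) h ↔ PL F a b (h.comp (C (D : F) * X)) := by
  have h1 := pg_iff (A := (a : F)) (B := (b : F)) hd0 hd (h := h)
  have e1 : PL F (a * D ^ 2) (b * D ^ 3) h ↔ PG ((a : F) * (D : F) ^ 2) ((b : F) * (D : F) ^ 3) h := by
    unfold PL PG ff
    rw [Int.cast_mul, Int.cast_mul, Int.cast_pow, Int.cast_pow]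
  rw [e1, h1]
  exact Iff.rfl

theorem map_comp_D {F : Type} [Field F] [Algebra ℚ F] (D : ℤ) (h : ℚ[X]) :
    (h.comp (C (D : ℚ) * X)).map (algebraMap ℚ F) =
      (h.map (algebraMap ℚ F)).comp (C (D : F) * X) := by
  rw [Polynomial.map_comp, Polynomial.map_mul, map_C, map_X, map_intCast]

/-- **Part L2.** -/
theorem l2 : Pool.Agent.H458.AR.S_L2 := by
  intro L _ _ a b D θ _ hD0 hD8 α _
  obtain ⟨d, hd⟩ := Pool.Agent.N3.PQ.TW2.sq_two D hD8
  have hDne : (D : ℚ_[2]) ≠ 0 := by exact_mod_cast hD0.ne'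
  have hDq : (D : ℚ) ≠ 0 := by exact_mod_cast hD0.ne'
  have hd0 : d ≠ 0 := by
    intro h0
    rw [h0, zero_pow two_ne_zero] at hd
    exact hDne hd.symm
  constructor
  · intro H h hh
    have e1 : (h.comp (C (D : ℚ)⁻¹ * X)).comp (C (D : ℚ) * X) = h := by
      have e := comp_inv (inv_ne_zero hDq) h
      rw [inv_inv] at e
      exact e
    have h1 : aeval ((D : L) * θ) (h.comp (C (D : ℚ)⁻¹ * X)) = α := by
      have hDL : (D : L) ≠ 0 := by exact_mod_cast hD0.ne'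
      rw [aeval_comp, map_mul, aeval_C, aeval_X, map_inv₀, map_intCast, ← mul_assoc,
        inv_mul_cancel₀ hDL, one_mul]
      exact hh
    have h2 := (pl_iff a b D hd0 hd _).1 (H _ h1)
    rw [← map_comp_D, e1] at h2
    exact h2
  · intro H h hh
    have h1 : aeval θ (h.comp (C (D : ℚ) * X)) = α := by
      rw [aeval_comp, map_mul, aeval_C, aeval_X, map_intCast]
      exact hh
    have h2 : PL ℚ_[2] a b ((h.comp (C (D : ℚ) * X)).map (algebraMap ℚ ℚ_[2])) := H _ h1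
    rw [map_comp_D] at h2
    exact (pl_iff a b D hd0 hd _).2 h2

end Pool.Agent.H249.AR458
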